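import Pool.Agent.Helper47.GM.Info
import Pool.Agent.Helper47.GM.Pieces
import Pool.Agent.Helper67.GT.Rows

/-!
MP_8ee768_co, project TH-Y', stage D: the rows `MM = 6, 4, 2, 0` of the glued types. The row `6` is
helper67's table.
-/

set_option autoImplicit false

namespace Pool.Agent.Helper47.GM

open Pool.Agent.Helper67.GT (gN gP gPiece)

/-- number of lanes of the type `t` with `MM = m` -/
noncomputable def gmN (m t : ℕ) : ℕ :=
  @Bool.rec (fun _ => ℕ) (Nat.land (smF m t) (nat_lit 1023)) (gN t) (Nat.beq m (nat_lit 6))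

/-- first piece of the row `m` of the type `t` -/
noncomputable def gmP (m t : ℕ) : ℕ :=
  @Bool.rec (fun _ => ℕ) (Nat.shiftRight (smF m t) (nat_lit 10)) (gP t) (Nat.beq m (nat_lit 6))

/-- the pieces of the rows `m` -/
noncomputable def gmPiece (m i : ℕ) : ℕ :=
  @Bool.rec (fun _ => ℕ) (smPiece i) (gPiece i) (Nat.beq m (nat_lit 6))

/-- the lane `k` of the row `m` of the type `t` -/
noncomputable def laneM (m t k : ℕ) : ℕ :=
  (gmPiece m (gmP m t + k / 64) >>> (210 * (k % 64))) % 2 ^ 210

/-- the row `m` of the type `t` -/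
def lanesM (m t : ℕ) : Set ℕ := {x | ∃ k < gmN m t, x = laneM m t k}

/-- the row 6 is helper67's row -/
theorem lanesM_six (t : ℕ) : lanesM 6 t = Pool.Agent.Helper67.GT.lanes t := rfl

end Pool.Agent.Helper47.GM
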